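import Pool.Agent.W2helper68.DL.Sync

/-! Parents of long periodic stretches. -/

set_option autoImplicit false

namespace Pool.Agent.W2helper80.DL

open Pool.Agent.W2helper68.DL

section
variable {A B : Type} {y : ℤ → A} {x : ℤ → B} {c : ℤ → ℤ} {Λ K Q0 : ℤ}

theorem lemA_right (hc : Cut y x c Λ) (DR : ∀ p q, Agr x (c p) (c q) 0 K → y p = y q)
    {h a b r1 r2 : ℤ} (hper : Per x h a b) (ha : a ≤ c r1) (he : c r2 = c r1 + h) (s : ℕ) :
    c (r2 + s) + K ≤ b → c (r2 + s) = c (r1 + s) + h ∧ y (r1 + s) = y (r2 + s) := by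
  have key : ∀ s : ℕ, c (r2 + s) + K ≤ b → c (r2 + s) = c (r1 + s) + h → a ≤ c (r1 + s) →
      y (r1 + s) = y (r2 + s) := by
    intro s h1 h2 h3
    refine DR _ _ (fun t ht1 ht2 => ?_)
    have := hper (c (r1 + s) + t) (by omega) (by omega)
    rw [this]
    congr 1
    omega
  induction s with
  | zero =>
    intro hs
    have h0 : c (r2 + (0 : ℕ)) = c (r1 + (0 : ℕ)) + h := by simpa using he
    exact ⟨h0, key 0 hs h0 (by simpa using ha)⟩
  | succ s ih =>
    intro hs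
    have h1 : c (r2 + s) ≤ c (r2 + ((s + 1 : ℕ) : ℤ)) := hc.mono (by push_cast; omega)
    obtain ⟨h2, h3⟩ := ih (by omega)
    obtain ⟨h4, _⟩ := hc.det _ _ h3
    have e1 : r1 + ((s + 1 : ℕ) : ℤ) = r1 + s + 1 := by push_cast; ring
    have e2 : r2 + ((s + 1 : ℕ) : ℤ) = r2 + s + 1 := by push_cast; ring
    have h5 : c (r2 + ((s + 1 : ℕ) : ℤ)) = c (r1 + ((s + 1 : ℕ) : ℤ)) + h := by
      rw [e1, e2]; omega
    have h6 : c r1 ≤ c (r1 + ((s + 1 : ℕ) : ℤ)) := hc.mono (by push_cast; omega)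
    exact ⟨h5, key (s + 1) hs h5 (by omega)⟩

theorem lemA_left (hc : Cut y x c Λ) (DL : ∀ p q, Agr x (c p) (c q) (-K) 0 → y (p - 1) = y (q - 1))
    {h a b r1 r2 : ℤ} (hper : Per x h a b) (hb : c r2 ≤ b) (he : c r2 = c r1 + h) (s : ℕ) :
    a + K ≤ c (r1 - s) → c (r2 - s) = c (r1 - s) + h ∧ y (r1 - s - 1) = y (r2 - s - 1) := by
  have key : ∀ s : ℕ, a + K ≤ c (r1 - s) → c (r2 - s) = c (r1 - s) + h → c (r2 - s) ≤ b →
      y (r1 - s - 1) = y (r2 - s - 1) := by
    intro s h1 h2 h3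
    refine DL _ _ (fun t ht1 ht2 => ?_)
    have := hper (c (r1 - s) + t) (by omega) (by omega)
    rw [this]
    congr 1
    omega
  induction s with
  | zero =>
    intro hs
    have h0 : c (r2 - (0 : ℕ)) = c (r1 - (0 : ℕ)) + h := by simpa using he
    exact ⟨h0, key 0 hs h0 (by simpa using hb)⟩
  | succ s ih =>
    intro hs
    have h1 : c (r1 - ((s + 1 : ℕ) : ℤ)) ≤ c (r1 - s) := hc.mono (by push_cast; omega)
    obtain ⟨h2, h3⟩ := ih (by omega)
    obtain ⟨h4, _⟩ := hc.det _ _ h3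
    rw [show r1 - (s : ℤ) - 1 + 1 = r1 - s by ring, show r2 - (s : ℤ) - 1 + 1 = r2 - s by ring] at h4
    have e1 : r1 - ((s + 1 : ℕ) : ℤ) = r1 - s - 1 := by push_cast; ring
    have e2 : r2 - ((s + 1 : ℕ) : ℤ) = r2 - s - 1 := by push_cast; ring
    have h5 : c (r2 - ((s + 1 : ℕ) : ℤ)) = c (r1 - ((s + 1 : ℕ) : ℤ)) + h := by
      rw [e1, e2]; omega
    have h6 : c (r2 - ((s + 1 : ℕ) : ℤ)) ≤ c r2 := hc.mono (by push_cast; omega)
    exact ⟨h5, key (s + 1) hs h5 (by omega)⟩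

/-- (P): a period at level 0 which joins two cuts gives a period at level 1 -/
theorem lemA (hs : Syn y x c Λ K Q0) {h a b r1 r2 p1 p2 : ℤ} (hper : Per x h a b)
    (he : c r2 = c r1 + h) (h1 : a + K ≤ c r1) (h2 : c r2 ≤ b - K) (h3 : a + K ≤ c p1)
    (h4 : c p2 ≤ b - K) : Per y (r2 - r1) p1 p2 := by
  intro t ht1 ht2
  have hK := hs.K0
  by_cases hc : r1 ≤ t
  · have e0 : ((t - r1).toNat : ℤ) = t - r1 := Int.toNat_of_nonneg (by omega)
    have h5 : c (r2 + (t - r1)) ≤ c p2 := hs.toCut.mono (by omega)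
    have := (lemA_right hs.toCut hs.DR hper (by omega) he (t - r1).toNat (by rw [e0]; omega)).2
    rw [e0] at this
    rw [show r1 + (t - r1) = t by ring, show r2 + (t - r1) = t + (r2 - r1) by ring] at this
    exact this
  · have e0 : ((r1 - t - 1).toNat : ℤ) = r1 - t - 1 := Int.toNat_of_nonneg (by omega)
    have h5 : c p1 ≤ c (r1 - (r1 - t - 1)) := hs.toCut.mono (by omega)
    have := (lemA_left hs.toCut hs.DL hper (by omega) he (r1 - t - 1).toNat (by rw [e0]; omega)).2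
    rw [e0] at this
    rw [show r1 - (r1 - t - 1) - 1 = t by ring, show r2 - (r1 - t - 1) - 1 = t + (r2 - r1) by ring]
      at this
    exact this

/-- the image of a period -/
theorem lemB1 (hc : Cut y x c Λ) {q p p2 : ℤ} (hper : Per y q p p2) (s : ℕ) :
    p + q + s ≤ p2 → c (p + q + s) - c (p + s) = c (p + q) - c p := by
  induction s with
  | zero => intro _; simp
  | succ s ih =>
    intro hs
    push_cast at hs
    have h1 := ih (by omega)
    have h2 := hper (p + s) (by omega) (by omega)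
    obtain ⟨h3, _⟩ := hc.det _ _ h2
    have e1 : p + q + ((s + 1 : ℕ) : ℤ) = p + s + q + 1 := by push_cast; ring
    have e2 : p + ((s + 1 : ℕ) : ℤ) = p + s + 1 := by push_cast; ring
    have e3 : p + q + (s : ℤ) = p + s + q := by ring
    rw [e1, e2]
    rw [e3] at h1
    omega

theorem lemB2 (hc : Cut y x c Λ) {q p p2 : ℤ} (hper : Per y q p p2) (hpq : p + q ≤ p2) :
    Per x (c (p + q) - c p) (c p) (c p2) := by
  intro u hu1 hu2
  obtain ⟨t, ht1, ht2⟩ := hc.exists_cut' u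
  have h1 : p ≤ t := by
    have := hc.lt_iff.1 (show c p < c (t + 1) by omega)
    omega
  have h2 : t + q < p2 := by
    by_contra hcon
    have e0 : ((p2 - q - p).toNat : ℤ) = p2 - q - p := Int.toNat_of_nonneg (by omega)
    have h3 := lemB1 hc hper (p2 - q - p).toNat (by rw [e0]; omega)
    rw [e0, show p + q + (p2 - q - p) = p2 by ring, show p + (p2 - q - p) = p2 - q by ring] at h3
    have h4 : c (p2 - q) ≤ c t := hc.mono (by omega)
    omega
  have e0 : ((t - p).toNat : ℤ) = t - p := Int.toNat_of_nonneg (by omega)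
  have h3 := lemB1 hc hper (t - p).toNat (by rw [e0]; omega)
  rw [e0, show p + q + (t - p) = t + q by ring, show p + (t - p) = t by ring] at h3
  obtain ⟨h4, h5⟩ := hc.det _ _ (hper t h1 h2)
  have h6 := h5 (u - c t) (by omega) (by omega)
  rw [show c t + (u - c t) = u by ring] at h6
  rw [h6]
  congr 1
  omega

/-- two of `q + 1` consecutive cuts are congruent modulo `q` -/
theorem lemC (c : ℤ → ℤ) {q : ℤ} (hq : 1 ≤ q) (p : ℤ) :
    ∃ r1 r2, p ≤ r1 ∧ r1 < r2 ∧ r2 ≤ p + q ∧ q ∣ c r2 - c r1 := by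
  have hcard : (Finset.Ico 0 q).card < (Finset.Icc p (p + q)).card := by
    rw [Int.card_Ico, Int.card_Icc]
    omega
  obtain ⟨r1, h1, r2, h2, hne, h3⟩ := Finset.exists_ne_map_eq_of_card_lt_of_maps_to hcard
    (f := fun r => c r % q) (fun r _ => by
      rw [Finset.mem_coe, Finset.mem_Ico]
      exact ⟨Int.emod_nonneg _ (by omega), Int.emod_lt_of_pos _ (by omega)⟩)
  rw [Finset.mem_Icc] at h1 h2
  rcases lt_or_gt_of_ne hne with h | h
  · exact ⟨r1, r2, h1.1, h, h2.2, Int.ModEq.dvd (show c r1 ≡ c r2 [ZMOD q] from h3)⟩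
  · exact ⟨r2, r1, h2.1, h, h1.2, Int.ModEq.dvd (show c r2 ≡ c r1 [ZMOD q] from h3.symm)⟩

/-- long stretches: a period at level 1 -/
theorem lemP (hs : Syn y x c Λ K Q0) {q a b p1 p2 : ℤ} (hq : 1 ≤ q) (hper : Per x q a b)
    (h1 : a + K ≤ c p1) (h2 : c p1 + Λ * q ≤ b - K) (h3 : c p2 ≤ b - K) :
    ∃ q', 1 ≤ q' ∧ q' ≤ q ∧ Per y q' p1 p2 := by
  obtain ⟨r1, r2, h4, h5, h6, h7⟩ := lemC c hq p1
  have h8 : c p1 ≤ c r1 := hs.toCut.mono h4
  have h9 : c r1 < c r2 := hs.toCut.lt_iff.2 h5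
  have h10 : c r2 ≤ c (p1 + q) := hs.toCut.mono h6
  have h11 := hs.toCut.add_hi (show p1 ≤ p1 + q by omega)
  rw [show p1 + q - p1 = q by ring] at h11
  obtain ⟨k, hk⟩ := h7
  have hk0 : 0 < k := by
    by_contra hcon
    have : q * k ≤ 0 := mul_nonpos_of_nonneg_of_nonpos (by omega) (by omega)
    omega
  have hper' := hper.mul (by omega) k.toNat
  rw [Int.toNat_of_nonneg hk0.le] at hper'
  refine ⟨r2 - r1, by omega, by omega, lemA hs hper' (by rw [mul_comm k q]; omega) (by omega)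
    (by omega) h1 h3⟩

/-- long stretches without a short period: the period is at least halved -/
theorem lemP2 (hs : Syn y x c Λ K Q0) {Q q a b p1 p2 : ℤ} (hq : 1 ≤ q) (hqQ : q ≤ Q) (hQ : Q0 ≤ Q)
    (hper : Per x q a b) (hlen : 2 * K + 3 * Q + Λ ≤ b - a)
    (hno : ¬ ∃ q0, 1 ≤ q0 ∧ q0 ≤ Q0 ∧ Per x q0 a b)
    (h1 : a + K ≤ c p1) (h2 : c p1 + Q ≤ b - K) (h3 : c p2 ≤ b - K) :
    ∃ q', 1 ≤ q' ∧ 2 * q' ≤ q ∧ Per y q' p1 p2 := by
  have hK := hs.K0
  have hΛ := hs.toCut.two_le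
  have hag : Agr x a (a + q) 0 (b - a - q) := by
    intro t ht1 ht2
    have := hper (a + t) (by omega) (by omega)
    rw [this]
    congr 1
    ring
  obtain ⟨r, hr⟩ := hs.SC a (a + q) (b - a - q) hag (by
    rintro ⟨q0, h4, h5, h6⟩
    refine hno ⟨q0, h4, h5, ?_⟩
    have h7 := h6.transfer (by omega) (by omega) hper (by
      rw [max_eq_left (by omega), min_eq_left (by omega)]
      omega)
    rw [min_eq_right (by omega), max_eq_right (by omega)] at h7
    exact h7) p1 (by omega) (by omega)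
  have h4 : c r = c p1 + q := by omega
  have h5 : p1 < r := hs.toCut.lt_iff.1 (by omega)
  have h6 := hs.toCut.add_le h5.le
  exact ⟨r - p1, by omega, by omega, lemA hs hper h4 h1 (by omega) h1 h3⟩

/-- `a` is the beginning of a stretch of length `M` -/
def LStart (x : ℤ → B) (Q M a : ℤ) : Prop :=
  ∃ q, 1 ≤ q ∧ q ≤ Q ∧ Per x q a (a + M) ∧ x (a - 1) ≠ x (a - 1 + q)

theorem LStart.anti {Q M M' a : ℤ} (h : LStart x Q M a) (hM : M' ≤ M) : LStart x Q M' a := by
  obtain ⟨q, h1, h2, h3, h4⟩ := h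
  exact ⟨q, h1, h2, h3.mono le_rfl (by omega), h4⟩

/-- exact left ends -/
theorem exact_left {q p1 p2 bd : ℤ} (hper : Per y q p1 p2)
    (hbd : ∀ p', p' ≤ p1 → Per y q p' p2 → bd ≤ p') :
    ∃ p, p ≤ p1 ∧ Per y q p p2 ∧ y (p - 1) ≠ y (p - 1 + q) := by
  obtain ⟨p, ⟨h1, h2⟩, h3⟩ := Int.exists_least_of_bdd (P := fun p' => p' ≤ p1 ∧ Per y q p' p2)
    ⟨bd, fun z hz => hbd z hz.1 hz.2⟩ ⟨p1, le_rfl, hper⟩
  refine ⟨p, h1, h2, fun h4 => ?_⟩
  have h5 : Per y q (p - 1) p2 := by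
    intro t ht1 ht2
    by_cases hc : t = p - 1
    · rw [hc]; exact h4
    · exact h2 t (by omega) ht2
  have := h3 (p - 1) ⟨by omega, h5⟩
  omega

/-- parents of exact starts -/
theorem parent (hs : Syn y x c Λ K Q0) {Q q a b : ℤ} (hq : 1 ≤ q) (hqQ : q ≤ Q)
    (hQ : Q0 ≤ Q) (hper : Per x q a b) (hex : x (a - 1) ≠ x (a - 1 + q))
    (hlen : 2 * K + 2 * Λ + 2 * (Λ * Q) + Q ≤ b - a) :
    ∃ p p2 q', 1 ≤ q' ∧ q' ≤ q ∧ a ≤ c p ∧ c p < a + K + Λ ∧ b - K - Λ < c p2 ∧ c p2 ≤ b - K ∧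
      2 * Q ≤ p2 - p ∧
      Per y q' p p2 ∧ y (p - 1) ≠ y (p - 1 + q') ∧
      ∀ r, 1 ≤ r → r ≤ Q → Per x r a b → (∃ r', 1 ≤ r' ∧ r' ≤ r ∧ Per y r' p p2) ∧
        ((¬ ∃ q0, 1 ≤ q0 ∧ q0 ≤ Q0 ∧ Per x q0 a b) → ∃ r', 1 ≤ r' ∧ 2 * r' ≤ r ∧ Per y r' p p2) := by
  have hK := hs.K0
  have hΛ := hs.toCut.two_le
  have hQ01 := hs.Q01
  have hΛQ : ∀ r, r ≤ Q → Λ * r ≤ Λ * Q := fun r hr => mul_le_mul_of_nonneg_left hr (by omega)
  have hΛQ2 : 2 * Q ≤ Λ * Q := mul_le_mul_of_nonneg_right hΛ (by omega)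
  obtain ⟨p1, h1, h2⟩ := hs.toCut.exists_cut (a + K)
  obtain ⟨p2, h3, h4⟩ := hs.toCut.exists_cut' (b - K)
  have h5 := hs.hi (p1 - 1)
  rw [show p1 - 1 + 1 = p1 by ring] at h5
  have h6 := hs.hi p2
  have hq1 := hΛQ q hqQ
  -- the number of letters
  have hlt : c p1 < c p2 := by omega
  have hp12 : p1 < p2 := hs.toCut.lt_iff.1 hlt
  have h7 := hs.toCut.add_hi hp12.le
  have h8 : 2 * Q < p2 - p1 := by
    by_contra hcon
    have : Λ * (p2 - p1) ≤ Λ * (2 * Q) := mul_le_mul_of_nonneg_left (by omega) (by omega)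
    have e : Λ * (2 * Q) = 2 * (Λ * Q) := by ring
    omega
  obtain ⟨q', hq'1, hq'2, hper'⟩ := lemP hs hq hper h1 (by omega) h3
  have hbd : ∀ p', p' ≤ p1 → Per y q' p' p2 → a ≤ c p' := by
    intro p' h9 h10
    by_contra hcon
    have h11 := lemB2 hs.toCut h10 (by omega)
    have h12 := hs.toCut.add_hi (show p' ≤ p' + q' by omega)
    rw [show p' + q' - p' = q' by ring] at h12
    have h12' := hΛQ q' (by omega)
    have h13 := hs.toCut.add_le (show p' ≤ p' + q' by omega)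
    have h14 : c p' ≤ c p1 := hs.toCut.mono h9
    have h15 := hper.transfer hq (show 1 ≤ c (p' + q') - c p' by omega) h11 (by
      rw [max_eq_left (by omega), min_eq_right (by omega)]
      omega)
    rw [min_eq_right (by omega), max_eq_left (by omega)] at h15
    exact hex (h15 (a - 1) (by omega) (by omega))
  obtain ⟨p, h9, h10, h11⟩ := exact_left hper' (bd := p1 - (c p1 - a)) (by
    intro p' h12 h13
    have h14 := hbd p' h12 h13
    have h15 := hs.toCut.add_le h12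
    omega)
  have h12 : c p ≤ c p1 := hs.toCut.mono h9
  refine ⟨p, p2, q', hq'1, hq'2, hbd p h9 h10, by omega, by omega, h3, by omega, h10, h11, ?_⟩
  intro r hr1 hr2 hr3
  have hext : ∀ r', 1 ≤ r' → r' ≤ Q → Per y r' p1 p2 → Per y r' p p2 := by
    intro r' h13 h14 h15
    have h16 := h15.transfer h13 hq'1 h10 (by
      rw [max_eq_left (by omega), min_eq_left le_rfl]
      omega)
    rw [min_eq_right (by omega), max_eq_left le_rfl] at h16
    exact h16
  have hr4 := hΛQ r hr2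
  constructor
  · obtain ⟨r', h13, h14, h15⟩ := lemP hs hr1 hr3 h1 (by omega) h3
    exact ⟨r', h13, h14, hext r' h13 (by omega) h15⟩
  · intro hno
    obtain ⟨r', h13, h14, h15⟩ := lemP2 hs hr1 hr2 hQ hr3 (by omega) hno h1 (by omega) h3
    exact ⟨r', h13, h14, hext r' h13 (by omega) h15⟩

/-- half of `child`: the second child does not extend further to the left -/
theorem child_half (hc : Cut y x c Λ) {Q N a a' p p' g : ℤ} (hK : 0 ≤ K) (hQ : 1 ≤ Q) (hg : 0 ≤ g)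
    (hg2 : K + Λ + 1 ≤ 2 * g) (hag : Agr y p p' (-g) (2 * Q))
    (h1 : a ≤ c p) (h3 : a' ≤ c p') (h4 : c p' ≤ a' + K + Λ)
    (hN : K + Λ + 4 * Q ≤ N) (hL : LStart x Q N a) (hL' : LStart x Q N a') :
    c p' - a' ≤ c p - a := by
  have hΛ := hc.two_le
  by_contra hcon
  obtain ⟨q, hq1, hq2, hq3, hq4⟩ := hL
  obtain ⟨q', hq1', hq2', hq3', _⟩ := hL'
  obtain ⟨_, h6⟩ := hc.agr (by omega) (by omega) hag
  have h7 := hc.add_le (show p + -g ≤ p by omega)
  have h8 := hc.add_le (show p ≤ p + 2 * Q by omega)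
  -- the period of the second child at the place of the first
  have h9 : Per x q' (c p - (c p' - a')) (c p + 4 * Q) := by
    intro t ht1 ht2
    have e1 := h6 (t - c p) (by omega) (by omega)
    have e2 := h6 (t - c p + q') (by omega) (by omega)
    have e3 := hq3' (c p' + (t - c p)) (by omega) (by omega)
    rw [show c p + (t - c p) = t by ring] at e1
    rw [show c p + (t - c p + q') = t + q' by ring] at e2
    rw [e1, e2, e3]
    congr 1
    ring
  have h10 := (hq3.mono (a' := a) (b' := c p + 4 * Q) le_rfl (by omega)).transfer hq1 hq1' h9 (by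
    rw [max_eq_left (by omega), min_eq_left le_rfl]
    omega)
  rw [min_eq_right (by omega), max_eq_left le_rfl] at h10
  exact hq4 (h10 (a - 1) (by omega) (by omega))

/-- the child is determined by the parent -/
theorem child (hc : Cut y x c Λ) {Q N a a' p p' g : ℤ} (hK : 0 ≤ K) (hQ : 1 ≤ Q) (hg : 0 ≤ g)
    (hg2 : K + Λ + 1 ≤ 2 * g) (hag : Agr y p p' (-g) (2 * Q))
    (h1 : a ≤ c p) (h2 : c p ≤ a + K + Λ) (h3 : a' ≤ c p') (h4 : c p' ≤ a' + K + Λ)
    (hN : K + Λ + 4 * Q ≤ N) (hL : LStart x Q N a) (hL' : LStart x Q N a') :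
    c p - a = c p' - a' ∧ Agr x a a' (-(2 * g - (K + Λ))) (2 * Q) := by
  have e1 := child_half hc hK hQ hg hg2 hag h1 h3 h4 hN hL hL'
  have e2 := child_half hc hK hQ hg hg2 hag.symm h3 h1 h2 hN hL' hL
  have e3 : c p - a = c p' - a' := by omega
  refine ⟨e3, ?_⟩
  obtain ⟨_, h6⟩ := hc.agr (by omega) (by omega) hag
  have h7 := hc.add_le (show p + -g ≤ p by omega)
  have h8 := hc.add_le (show p ≤ p + 2 * Q by omega)
  exact h6.shift' (by omega) (by omega) (by omega)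

end

end Pool.Agent.W2helper80.DL
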