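import Pool.Agent.W2helper68.DL.Stm2
import Pool.Agent.W2helper80.DL.Par

/-! Job R: long periodic stretches. -/

set_option autoImplicit false

namespace Pool.Agent.W2helper80.DL

open Pool.Agent.W2helper68.DL

section data
variable {A : Type}

/-- the window of `y` around `a` -/
def dat (y : ℤ → A) (D R : ℕ) (a : ℤ) : Fin (D + R) → A := fun t => y (a - D + (t : ℕ))

theorem dat_eq {y : ℤ → A} {D R : ℕ} {a a' : ℤ} (h : dat y D R a = dat y D R a') :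
    Agr y a a' (-D) R := by
  intro t h1 h2
  have h3 := congrFun h ⟨(t + D).toNat, by omega⟩
  unfold dat at h3
  simp only at h3
  rw [Int.toNat_of_nonneg (by omega)] at h3
  rw [show a - (D : ℤ) + (t + D) = a + t by ring, show a' - (D : ℤ) + (t + D) = a' + t by ring] at h3
  exact h3

theorem eq_dat {y : ℤ → A} {D R : ℕ} {a a' : ℤ} (h : Agr y a a' (-D) R) :
    dat y D R a = dat y D R a' := by
  funext t
  have h1 := t.2
  have h2 := h (((t : ℕ) : ℤ) - D) (by omega) (by omega)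
  unfold dat
  rw [show a - (D : ℤ) + ((t : ℕ) : ℤ) = a + (((t : ℕ) : ℤ) - D) by ring,
    show a' - (D : ℤ) + ((t : ℕ) : ℤ) = a' + (((t : ℕ) : ℤ) - D) by ring]
  exact h2

theorem per_agr {y : ℤ → A} {a a' q D R : ℤ} (hD : 0 ≤ D) (hq : 0 ≤ q)
    (h : Agr y a a' (-D) R) (hp : Per y q a (a + R)) : Per y q a' (a' + R) := by
  intro t h1 h2
  have e1 := h (t - a') (by omega) (by omega)
  have e2 := h (t - a' + q) (by omega) (by omega)
  have e3 := hp (a + (t - a')) (by omega) (by omega)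
  rw [show a' + (t - a') = t by ring] at e1
  rw [show a' + (t - a' + q) = t + q by ring] at e2
  rw [← e1, ← e2, e3]
  congr 1
  ring

end data

section main
variable {A : Type} {y : ℤ → A} {e : ℤ → ℤ} {Λ K Q0 : ℤ}

/-- `p` is the parent of `a` -/
def Link (y : ℤ → A) (e : ℤ → ℤ) (Λ K Q0 : ℤ) (Q : ℕ) (N : ℕ) (a p : ℤ) : Prop :=
  LStart y Q N a ∧ LStart y Q N p ∧ a ≤ e p ∧ e p ≤ a + K + Λ ∧
  ∀ r : ℤ, 1 ≤ r → r ≤ Q → Per y r a (a + 2 * Q) →
    (∃ r', 1 ≤ r' ∧ r' ≤ r ∧ Per y r' p (p + 2 * Q)) ∧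
    ((¬ ∃ q0, 1 ≤ q0 ∧ q0 ≤ Q0 ∧ Per y q0 a (a + 2 * Q)) →
      ∃ r', 1 ≤ r' ∧ 2 * r' ≤ r ∧ Per y r' p (p + 2 * Q))

theorem Link.anti {Q N N' : ℕ} {a p : ℤ} (h : Link y e Λ K Q0 Q N a p) (hN : N' ≤ N) :
    Link y e Λ K Q0 Q N' a p := by
  obtain ⟨h1, h2, h3⟩ := h
  exact ⟨h1.anti (by exact_mod_cast hN), h2.anti (by exact_mod_cast hN), h3⟩

/-- short windows of a long stretch show its periods -/
theorem per_long {a M q r Q : ℤ} (hq : 1 ≤ q) (hqQ : q ≤ Q) (hr : 1 ≤ r) (hrQ : r ≤ Q)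
    (hM : 2 * Q ≤ M) (h : Per y q a (a + M)) (h' : Per y r a (a + 2 * Q)) :
    Per y r a (a + M) := by
  have := h'.transfer hr hq h (by
    rw [max_self, min_eq_left (by omega)]
    omega)
  rw [min_self, max_eq_right (by omega)] at this
  exact this

theorem exists_link (hs : Syn y y e Λ K Q0) {Q : ℕ} (hQ : Q0 ≤ Q) (N : ℕ) :
    ∃ M : ℕ, ∀ a : ℤ, LStart y Q M a → ∃ p, Link y e Λ K Q0 Q N a p := by
  have hK := hs.K0
  have hΛ := hs.toCut.two_le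
  have hQ01 := hs.Q01
  have hΛQ : 0 ≤ Λ * Q := mul_nonneg (by omega) (by omega)
  have hΛN : 0 ≤ Λ * N := mul_nonneg (by omega) (by omega)
  refine ⟨(2 * K + 2 * Λ + 2 * (Λ * Q) + Q + Λ * N + N).toNat, fun a ha => ?_⟩
  set M : ℤ := 2 * K + 2 * Λ + 2 * (Λ * Q) + Q + Λ * N + N with hM
  have hM0 : 0 ≤ M := by omega
  rw [Int.toNat_of_nonneg hM0] at ha
  have haN := ha.anti (show (N : ℤ) ≤ M by omega)
  obtain ⟨q, h1, h2, h3, h4⟩ := ha
  obtain ⟨p, p2, q', a1, a2, a3, a4, a5, a6, a7, a8, a9, a10⟩ := parent hs h1 h2 hQ h3 h4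
    (by omega)
  have hlen : (N : ℤ) ≤ p2 - p := by
    by_contra hcon
    have h5 := hs.toCut.add_hi (show p ≤ p2 by omega)
    have h6 : Λ * (p2 - p) ≤ Λ * N := mul_le_mul_of_nonneg_left (by omega) (by omega)
    omega
  refine ⟨p, haN, ⟨q', a1, by omega, a8.mono le_rfl (by omega), a9⟩, a3, by omega, ?_⟩
  intro r hr1 hr2 hr3
  have hr4 := per_long h1 h2 hr1 hr2 (show 2 * (Q : ℤ) ≤ M by
    have : 2 * (Q : ℤ) ≤ Λ * Q := mul_le_mul_of_nonneg_right hΛ (by omega)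
    omega) h3 hr3
  obtain ⟨b1, b2⟩ := a10 r hr1 hr2 hr4
  constructor
  · obtain ⟨r', c1, c2, c3⟩ := b1
    exact ⟨r', c1, c2, c3.mono le_rfl (by omega)⟩
  · intro hno
    obtain ⟨r', c1, c2, c3⟩ := b2 (by
      rintro ⟨q0, c1, c2, c3⟩
      exact hno ⟨q0, c1, c2, c3.mono le_rfl (by
        have : 2 * (Q : ℤ) ≤ Λ * Q := mul_le_mul_of_nonneg_right hΛ (by omega)
        omega)⟩)
    exact ⟨r', c1, c2, c3.mono le_rfl (by omega)⟩

/-- data of arbitrarily long stretches -/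
def WW (y : ℤ → A) (Q D : ℕ) : Set (Fin (D + 2 * Q) → A) :=
  {W | ∀ N : ℕ, ∃ a, LStart y Q N a ∧ dat y D (2 * Q) a = W}

theorem thr [Finite A] (y : ℤ → A) (Q D : ℕ) :
    ∃ M : ℕ, ∀ a, LStart y Q M a → dat y D (2 * Q) a ∈ WW y Q D := by
  classical
  have h1 : ∀ W : Fin (D + 2 * Q) → A, ∃ N : ℕ, W ∉ WW y Q D →
      ∀ a, LStart y Q N a → dat y D (2 * Q) a ≠ W := by
    intro W
    by_cases hW : W ∈ WW y Q D
    · exact ⟨0, fun h => absurd hW h⟩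
    · unfold WW at hW
      rw [Set.mem_ofPred_eq] at hW
      push Not at hW
      obtain ⟨N, hN⟩ := hW
      exact ⟨N, fun _ => hN⟩
  choose N hN using h1
  obtain ⟨M, hM⟩ := (Set.finite_range N).bddAbove
  refine ⟨M, fun a ha => ?_⟩
  by_contra hcon
  exact hN _ hcon a (ha.anti (by exact_mod_cast hM ⟨_, rfl⟩)) rfl

/-- `V` is the data of parents of arbitrarily long stretches with data `W` -/
def Rel (y : ℤ → A) (e : ℤ → ℤ) (Λ K Q0 : ℤ) (Q D : ℕ) (V W : Fin (D + 2 * Q) → A) : Prop :=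
  ∀ N : ℕ, ∃ a p, Link y e Λ K Q0 Q N a p ∧ dat y D (2 * Q) a = W ∧ dat y D (2 * Q) p = V

theorem exists_rel [Finite A] (hs : Syn y y e Λ K Q0) {Q D : ℕ} (hQ : Q0 ≤ Q)
    {W : Fin (D + 2 * Q) → A} (hW : W ∈ WW y Q D) :
    ∃ V, V ∈ WW y Q D ∧ Rel y e Λ K Q0 Q D V W := by
  classical
  by_contra hcon
  push Not at hcon
  have h1 : ∀ V : Fin (D + 2 * Q) → A, ∃ N : ℕ, ∀ a p, Link y e Λ K Q0 Q N a p →
      dat y D (2 * Q) a = W → dat y D (2 * Q) p ≠ V := by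
    intro V
    by_cases hV : V ∈ WW y Q D
    · have h2 := hcon V hV
      unfold Rel at h2
      push Not at h2
      exact h2
    · unfold WW at hV
      rw [Set.mem_ofPred_eq] at hV
      push Not at hV
      obtain ⟨N, hN⟩ := hV
      exact ⟨N, fun a p h _ => hN p h.2.1⟩
  choose N hN using h1
  obtain ⟨M, hM⟩ := (Set.finite_range N).bddAbove
  obtain ⟨M', hM'⟩ := exists_link hs hQ M
  obtain ⟨a, ha, haW⟩ := hW M'
  obtain ⟨p, hp⟩ := hM' a ha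
  exact hN _ a p (hp.anti (hM ⟨_, rfl⟩)) haW rfl

theorem rel_inj (hs : Syn y y e Λ K Q0) {Q D : ℕ} (hQ : Q0 ≤ Q) (hD : K + Λ ≤ D)
    {V W W' : Fin (D + 2 * Q) → A} (h : Rel y e Λ K Q0 Q D V W) (h' : Rel y e Λ K Q0 Q D V W') :
    W = W' := by
  have hK := hs.K0
  have hΛ := hs.toCut.two_le
  have hQ01 := hs.Q01
  obtain ⟨a, p, h1, h2, h3⟩ := h (K + Λ + 4 * Q).toNat
  obtain ⟨a', p', h1', h2', h3'⟩ := h' (K + Λ + 4 * Q).toNat
  have hag := dat_eq (h3.trans h3'.symm)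
  push_cast at hag
  obtain ⟨b1, b2, b3, b4, -⟩ := h1
  obtain ⟨b1', b2', b3', b4', -⟩ := h1'
  rw [Int.toNat_of_nonneg (by omega)] at b1 b1'
  obtain ⟨_, h5⟩ := child hs.toCut hK (by omega) (show (0 : ℤ) ≤ D by omega) (by omega) hag b3 b4 b3' b4'
    le_rfl b1 b1'
  rw [← h2, ← h2']
  apply eq_dat
  exact h5.mono (by omega) (by push_cast; omega)

/-- the parent map on the data is a bijection -/
theorem exists_pi [Finite A] (hs : Syn y y e Λ K Q0) {Q D : ℕ} (hQ : Q0 ≤ Q) (hD : K + Λ ≤ D) :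
    ∃ π : WW y Q D → WW y Q D, Function.Bijective π ∧
      ∀ W, Rel y e Λ K Q0 Q D (π W).1 W.1 := by
  classical
  choose π h1 h2 using fun W : WW y Q D => exists_rel hs hQ W.2
  have hinj : Function.Injective (fun W : WW y Q D => (⟨π W, h1 W⟩ : WW y Q D)) := by
    intro W W' h
    have h3 : π W = π W' := congrArg Subtype.val h
    apply Subtype.ext
    exact rel_inj hs hQ hD (h2 W) (h3 ▸ h2 W')
  exact ⟨fun W => ⟨π W, h1 W⟩, Finite.injective_iff_bijective.1 hinj, h2⟩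

/-- all periods are at most `Q0` -/
theorem short [Finite A] (hs : Syn y y e Λ K Q0) {Q D : ℕ} (hQ : Q0 ≤ Q) (hD : K + Λ ≤ D)
    (k : ℕ) : Q0 ≤ (Q : ℤ) - k → ∀ v, dat y D (2 * Q) v ∈ WW y Q D →
      ∃ q, 1 ≤ q ∧ q ≤ (Q : ℤ) - k ∧ Per y q v (v + 2 * Q) := by
  have hQ01 := hs.Q01
  obtain ⟨π, hπ, hrel⟩ := exists_pi hs hQ hD
  induction k with
  | zero =>
    intro _ v hv
    obtain ⟨a, ⟨q, h1, h2, h3, _⟩, h5⟩ := hv (2 * Q)
    have hag := dat_eq h5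
    push_cast at hag h3
    exact ⟨q, h1, by simpa using h2, per_agr (by omega) (by omega) hag h3⟩
  | succ k ih =>
    intro hk v hv
    push_cast at hk
    obtain ⟨W, hW⟩ := hπ.2 ⟨_, hv⟩
    have h1 := hrel W
    rw [hW] at h1
    obtain ⟨a, p, h2, h3, h4⟩ := h1 0
    have hag := dat_eq h4
    push_cast at hag
    obtain ⟨q, h5, h6, h7⟩ := ih (by omega) a (h3 ▸ W.2)
    obtain ⟨-, -, -, -, h8⟩ := h2
    push_cast
    by_cases hex : ∃ q1, 1 ≤ q1 ∧ q1 ≤ (Q : ℤ) - (k + 1) ∧ Per y q1 a (a + 2 * Q)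
    · obtain ⟨q1, c1, c2, c3⟩ := hex
      obtain ⟨⟨r, c4, c5, c6⟩, -⟩ := h8 q1 c1 (by omega) c3
      exact ⟨r, c4, by omega, per_agr (by omega) (by omega) hag c6⟩
    · obtain ⟨-, h9⟩ := h8 q h5 (by omega) h7
      obtain ⟨r, c4, c5, c6⟩ := h9 (by
        rintro ⟨q0, c1, c2, c3⟩
        exact hex ⟨q0, c1, by omega, c3⟩)
      exact ⟨r, c4, by omega, per_agr (by omega) (by omega) hag c6⟩

theorem short' [Finite A] (hs : Syn y y e Λ K Q0) {Q D : ℕ} (hQ : Q0 ≤ Q) (hD : K + Λ ≤ D)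
    (v : ℤ) (hv : dat y D (2 * Q) v ∈ WW y Q D) :
    ∃ q, 1 ≤ q ∧ q ≤ Q0 ∧ Per y q v (v + 2 * Q) := by
  have e0 : (((Q : ℤ) - Q0).toNat : ℤ) = Q - Q0 := Int.toNat_of_nonneg (by omega)
  obtain ⟨q, h1, h2, h3⟩ := short hs hQ hD ((Q : ℤ) - Q0).toNat (by omega) v hv
  exact ⟨q, h1, by omega, h3⟩

/-- R1 for stretches which cannot be extended to the left for ever -/
theorem r1_left [Finite A] (hs : Syn y y e Λ K Q0) (Q : ℕ) (hQ : Q0 ≤ Q) :
    ∃ M : ℤ, ∀ q a b a' : ℤ, 1 ≤ q → q ≤ Q → M ≤ b - a → Per y q a b → a' ≤ a → ¬ Per y q a' b →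
      ∃ q0, 1 ≤ q0 ∧ q0 ≤ Q0 ∧ Per y q0 a b := by
  have hK := hs.K0
  have hΛ := hs.toCut.two_le
  obtain ⟨M, hM⟩ := thr y Q (K + Λ).toNat
  refine ⟨M + 3 * Q, fun q a b a' h1 h2 h3 h4 h5 h6 => ?_⟩
  obtain ⟨p, h7, h8, h9⟩ := exact_left (y := y) (q := q) (p1 := a) (p2 := b) (bd := a') h4 (by
    intro p' h7 h8
    by_contra hcon
    exact h6 (h8.mono (by omega) le_rfl))
  have h10 : LStart y Q (b - p) p := ⟨q, h1, h2, h8.mono le_rfl (by omega), h9⟩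
  obtain ⟨q0, h11, h12, h13⟩ := short' hs hQ (by rw [Int.toNat_of_nonneg (by omega)]) p
    (hM p (h10.anti (by omega)))
  have h14 := per_long h1 h2 h11 (by omega) (show 2 * (Q : ℤ) ≤ b - p by omega)
    (h8.mono le_rfl (by omega)) h13
  exact ⟨q0, h11, h12, h14.mono h7 (by omega)⟩

/-- the periodic case -/
theorem r1_glob (hs : Syn y y e Λ K Q0) (n : ℕ) : ∀ q : ℤ, 1 ≤ q → q ≤ n → (∀ t, y t = y (t + q)) →
    ∃ q0, 1 ≤ q0 ∧ q0 ≤ Q0 ∧ ∀ t, y t = y (t + q0) := by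
  have hK := hs.K0
  have hΛ := hs.toCut.two_le
  have hQ01 := hs.Q01
  induction n with
  | zero => intro q h1 h2 _; omega
  | succ n ih =>
    intro q h1 h2 h3
    by_cases hex : ∃ q0, 1 ≤ q0 ∧ q0 ≤ Q0 ∧ ∀ t, y t = y (t + q0)
    · exact hex
    have hperq : ∀ a b, Per y q a b := fun a b t _ _ => h3 t
    -- no short period on long windows
    have hno : ∀ a b, Q0 + q ≤ b - a → ¬ ∃ q0, 1 ≤ q0 ∧ q0 ≤ Q0 ∧ Per y q0 a b := by
      rintro a b hab ⟨q0, h4, h5, h6⟩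
      apply hex
      refine ⟨q0, h4, h5, fun t => ?_⟩
      have h7 := h6.transfer h4 h1 (hperq (min a t) (max b (t + q0 + 1))) (by
        rw [max_eq_left (min_le_left _ _), min_eq_left (le_max_left _ _)]
        omega)
      exact h7 t ((min_le_right _ _).trans (min_le_right _ _)) (by
        have h8 : t + q0 + 1 ≤ max b (max b (t + q0 + 1)) :=
          (le_max_right _ _).trans (le_max_right _ _)
        omega)
    obtain ⟨p1, h4, h5⟩ := hs.toCut.exists_cut K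
    have h6 := hs.hi (p1 - 1)
    rw [show p1 - 1 + 1 = p1 by ring] at h6
    obtain ⟨r, hr⟩ := hs.SC 0 q (2 * K + Λ + Q0 + q) (fun t _ _ => by
      rw [zero_add, add_comm q t]; exact h3 t) (hno _ _ (by omega)) p1 (by omega) (by omega)
    have h7 : e r = e p1 + q := by omega
    have h8 : p1 < r := hs.toCut.lt_iff.1 (by omega)
    have h9 := hs.toCut.add_le h8.le
    refine ih (r - p1) (by omega) (by omega) (fun t => ?_)
    -- a big window
    have h10 : Per y (r - p1) t (t + (r - p1) + 1) := by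
      refine lemA hs (hperq (min (e t) (e p1) - K) (max (e (t + (r - p1) + 1)) (e r) + K)) h7
        ?_ ?_ ?_ ?_
      · have := min_le_right (e t) (e p1); omega
      · have := le_max_right (e (t + (r - p1) + 1)) (e r); omega
      · have := min_le_left (e t) (e p1); omega
      · have := le_max_left (e (t + (r - p1) + 1)) (e r); omega
    exact h10 t le_rfl (by omega)

theorem r1 [Finite A] (hs : Syn y y e Λ K Q0) (Q : ℕ) (hQ : Q0 ≤ Q) :
    ∃ M0 : ℤ, ∀ q a b : ℤ, 1 ≤ q → q ≤ Q → M0 ≤ b - a → Per y q a b →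
      ∃ q0, 1 ≤ q0 ∧ q0 ≤ Q0 ∧ Per y q0 a b := by
  obtain ⟨M1, h1⟩ := r1_left hs Q hQ
  obtain ⟨M2, h2⟩ := r1_left hs.rev Q hQ
  refine ⟨max (max M1 M2) Q, fun q a b hq hqQ hM hper => ?_⟩
  have hM1 : M1 ≤ b - a := ((le_max_left _ _).trans (le_max_left _ _)).trans hM
  have hM2 : M2 ≤ b - a := ((le_max_right _ _).trans (le_max_left _ _)).trans hM
  have hMQ : (Q : ℤ) ≤ b - a := (le_max_right _ _).trans hM
  by_cases hl : ∃ a', a' ≤ a ∧ ¬ Per y q a' b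
  · obtain ⟨a', ha', hl⟩ := hl
    exact h1 q a b a' hq hqQ hM1 hper ha' hl
  by_cases hr : ∃ b', b ≤ b' ∧ ¬ Per y q a b'
  · obtain ⟨b', hb', hr⟩ := hr
    obtain ⟨q0, h3, h4, h5⟩ := h2 q (-b) (-a) (-b') hq hqQ (by omega) hper.rv (by omega) (by
      intro h
      have := h.rv
      rw [rv_rv, neg_neg, neg_neg] at this
      exact hr this)
    have := h5.rv
    rw [rv_rv, neg_neg, neg_neg] at this
    exact ⟨q0, h3, h4, this⟩
  push Not at hl hr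
  have hglob : ∀ t, y t = y (t + q) := by
    intro t
    by_cases ht : t < a
    · exact hl t ht.le t le_rfl (by omega)
    · exact hr (max b (t + q + 1)) (le_max_left _ _) t (by omega) (by
        have := le_max_right b (t + q + 1); omega)
  obtain ⟨q0, h3, h4, h5⟩ := r1_glob hs q.toNat q hq (by omega) hglob
  exact ⟨q0, h3, h4, fun t _ _ => h5 t⟩

/-- rigidity -/
theorem rigid [Finite A] (hs : Syn y y e Λ K Q0) {Q D : ℕ} (hQ : Q0 ≤ Q) (hD : K + Λ + 1 ≤ D)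
    (k : ℕ) : K + Λ + 1 ≤ (D : ℤ) - k → ∀ a a', dat y D (2 * Q) a ∈ WW y Q D →
      dat y D (2 * Q) a' ∈ WW y Q D → Agr y a a' (-((D : ℤ) - k)) (2 * Q) →
      dat y D (2 * Q) a = dat y D (2 * Q) a' := by
  have hK := hs.K0
  have hΛ := hs.toCut.two_le
  have hQ01 := hs.Q01
  obtain ⟨π, hπ, hrel⟩ := exists_pi hs hQ (show K + Λ ≤ D by omega)
  induction k with
  | zero =>
    intro _ a a' _ _ hag
    apply eq_dat
    push_cast
    simpa using hag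
  | succ k ih =>
    intro hk a a' ha ha' hag
    push_cast at hk hag
    obtain ⟨W, hW⟩ := hπ.2 ⟨_, ha⟩
    obtain ⟨W', hW'⟩ := hπ.2 ⟨_, ha'⟩
    have h1 := hrel W
    rw [hW] at h1
    have h1' := hrel W'
    rw [hW'] at h1'
    obtain ⟨v, p, h2, h3, h4⟩ := h1 (K + Λ + 4 * Q).toNat
    obtain ⟨v', p', h2', h3', h4'⟩ := h1' (K + Λ + 4 * Q).toNat
    have e1 := dat_eq h4
    have e1' := dat_eq h4'
    push_cast at e1 e1'
    have hag2 : Agr y p p' (-((D : ℤ) - (k + 1))) (2 * Q) :=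
      ((e1.mono (by omega) le_rfl).trans hag).trans (e1'.mono (by omega) le_rfl).symm
    obtain ⟨b1, b2, b3, b4, -⟩ := h2
    obtain ⟨b1', b2', b3', b4', -⟩ := h2'
    rw [Int.toNat_of_nonneg (by omega)] at b1 b1'
    obtain ⟨_, h5⟩ := child hs.toCut hK (by omega) (show (0 : ℤ) ≤ (D : ℤ) - (k + 1) by omega)
      (by omega) hag2 b3 b4 b3' b4' le_rfl b1 b1'
    have h6 := ih (by omega) v v' (h3 ▸ W.2) (h3' ▸ W'.2) (h5.mono (by omega) le_rfl)
    have h7 : W = W' := Subtype.ext (by rw [← h3, ← h3', h6])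
    have h8 : (⟨_, ha⟩ : WW y Q D) = ⟨_, ha'⟩ := by rw [← hW, ← hW', h7]
    exact congrArg Subtype.val h8

theorem r2 [Finite A] (hs : Syn y y e Λ K Q0) (Q : ℕ) (hQ : Q0 ≤ Q) :
    ∃ c0 : ℤ, 0 ≤ c0 ∧ ∀ D : ℤ, ∃ M1 : ℤ, ∀ q a1 a2 : ℤ, 1 ≤ q → q ≤ Q →
      Per y q a1 (a1 + M1) → y (a1 - 1) ≠ y (a1 - 1 + q) →
      Per y q a2 (a2 + M1) → y (a2 - 1) ≠ y (a2 - 1 + q) →
      Agr y a1 a2 (-c0) M1 → Agr y a1 a2 (-D) 0 := by
  have hK := hs.K0
  have hΛ := hs.toCut.two_le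
  refine ⟨K + Λ + 1, by omega, fun D => ?_⟩
  set D' : ℕ := (max D (K + Λ + 1)).toNat with hD'
  have e0 : (D' : ℤ) = max D (K + Λ + 1) := Int.toNat_of_nonneg (by
    have := le_max_right D (K + Λ + 1); omega)
  have hD1 : D ≤ D' := by rw [e0]; exact le_max_left _ _
  have hD2 : K + Λ + 1 ≤ D' := by rw [e0]; exact le_max_right _ _
  obtain ⟨M, hM⟩ := thr y Q D'
  refine ⟨M + 2 * Q, fun q a1 a2 h1 h2 h3 h4 h5 h6 h7 => ?_⟩
  have b1 := hM a1 (show LStart y Q M a1 from ⟨q, h1, h2, h3.mono le_rfl (by omega), h4⟩)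
  have b2 := hM a2 (show LStart y Q M a2 from ⟨q, h1, h2, h5.mono le_rfl (by omega), h6⟩)
  have e1 : (((D' : ℤ) - (K + Λ + 1)).toNat : ℤ) = D' - (K + Λ + 1) := Int.toNat_of_nonneg (by omega)
  have h8 := rigid hs hQ hD2 ((D' : ℤ) - (K + Λ + 1)).toNat (by omega) a1 a2 b1 b2
    (h7.mono (by omega) (by omega))
  have h9 := dat_eq h8
  exact h9.mono (by omega) (by push_cast; omega)

end main

theorem jobR : JobR := by
  intro A _ y e Λ K Q0 hs Q hQ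
  have hQ01 := hs.Q01
  obtain ⟨n, rfl⟩ : ∃ n : ℕ, Q = n := Int.eq_ofNat_of_zero_le (by omega)
  exact ⟨r1 hs n hQ, r2 hs n hQ⟩

end Pool.Agent.W2helper80.DL
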